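import Pool.Agent.Y481.DX.Defs
import Pool.Agent.Y333.DR.Tru

/-!
# Project DX, task DX-TRUX: the functions of the trees with expansions
-/

set_option autoImplicit false

namespace Pool.Agent.Y721.DX

open Finset Filter Topology Metric
open Pool.Agent.W711.HT hiding XX
open Pool.Agent.Y481.DR
open Pool.Agent.Y481.DX
open Pool.Agent.TH563.UV
open Pool.Agent.W719.AX (UX)
open Pool.Agent.Y333.DR
open scoped Real

/-- the factor -/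
noncomputable def fc (m N : ℕ) : ℂ := (N : ℂ) ^ (2 * m) * (-1) ^ (N * m)

theorem norm_fc (m N : ℕ) : ‖fc m N‖ = (N : ℝ) ^ (2 * m) := by
  unfold fc
  rw [norm_mul, norm_pow, norm_pow, norm_neg, norm_one, one_pow, mul_one, Complex.norm_natCast]

theorem log_small (m : ℕ) {ε : ℝ} (hε : 0 < ε) :
    ∀ᶠ N : ℕ in atTop, 1 ≤ N ∧ (2 * m : ℕ) * Real.log N ≤ ε * N := by
  have h1 := (Real.isLittleO_log_id_atTop.comp_tendsto tendsto_natCast_atTop_atTop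
    (β := ℕ) (α := ℝ)).def (c := ε / (2 * m + 1)) (by positivity)
  filter_upwards [h1, eventually_ge_atTop 1] with N h2 h3
  refine ⟨h3, ?_⟩
  simp only [Function.comp_apply, id_eq, Real.norm_eq_abs, Nat.abs_cast] at h2
  have h4 : Real.log N ≤ ε / (2 * m + 1) * N := (le_abs_self _).trans h2
  have hN : (0 : ℝ) ≤ N := Nat.cast_nonneg N
  have hm : (0 : ℝ) ≤ m := Nat.cast_nonneg m
  calc ((2 * m : ℕ) : ℝ) * Real.log N ≤ ((2 * m : ℕ) : ℝ) * (ε / (2 * m + 1) * N) :=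
        mul_le_mul_of_nonneg_left h4 (Nat.cast_nonneg _)
    _ = (2 * m / (2 * m + 1)) * (ε * N) := by push_cast; ring
    _ ≤ 1 * (ε * N) := by
        apply mul_le_mul_of_nonneg_right _ (by positivity)
        rw [div_le_one (by positivity)]
        linarith
    _ = ε * N := one_mul _

theorem log_fc {m N : ℕ} (hN : 1 ≤ N) : fc m N ≠ 0 ∧
    Real.log ‖fc m N‖ = (2 * m : ℕ) * Real.log N ∧ 0 ≤ Real.log (N : ℝ) := by
  have h1 : (0 : ℝ) < N := by exact_mod_cast hN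
  refine ⟨?_, ?_, Real.log_nonneg (by exact_mod_cast hN)⟩
  · rw [← norm_pos_iff, norm_fc]
    positivity
  · rw [norm_fc, Real.log_pow]

/-- the class `DG` is stable under the factors `N ^ (2 m) (-1) ^ (N m)` -/
theorem dg_scale {R R₀ B : ℝ} {Y : ℕ → ℂ → ℂ} {F : ℂ → ℂ} (h : DG R B Y F) (hR : R₀ ≤ R)
    (m : ℕ) : DG R₀ B (fun N ψ => Y N ψ * fc m N) F := by
  have hsub : Rc R₀ R₀ ⊆ Rc R R := fun z hz => ⟨lt_of_lt_of_le hz.1 hR, lt_of_lt_of_le hz.2 hR⟩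
  refine ⟨⟨fun N => (h.sub.an N).mul_const _, ?_, ?_⟩, h.F0, h.Fan.mono hsub,
    fun ψ hψ => h.Fev ψ (hsub hψ), fun ψ hψ => h.Fbd ψ (hsub hψ),
    fun ψ hψ => h.Fconc ψ (hsub hψ), ?_⟩
  · intro N ψ
    show Y N (-ψ) * _ = Y N ψ * _
    rw [h.sub.ev]
  · intro ε hε
    filter_upwards [h.sub.gr (ε / 2) (by linarith), log_small m (ε := ε / 2) (by linarith)] with
      N h1 ⟨hN, h2⟩ ψ hψ1 hψ2
    obtain ⟨h3, h4, h5⟩ := log_fc (m := m) hN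
    have h6 : ‖fc m N‖ ≤ Real.exp (ε / 2 * N) := by
      rw [← Real.exp_log (norm_pos_iff.2 h3), h4]
      exact Real.exp_le_exp.2 h2
    rw [norm_mul]
    calc ‖Y N ψ‖ * ‖fc m N‖ ≤ Real.exp (N * (ε / 2)) * Real.exp (ε / 2 * N) :=
          mul_le_mul (h1 ψ hψ1 hψ2) h6 (norm_nonneg _) (Real.exp_pos _).le
      _ = Real.exp (N * ε) := by
          rw [← Real.exp_add]
          congr 1
          ring
  · intro ε hε
    filter_upwards [h.mw (ε / 2) (by linarith), log_small m (ε := ε / 2) (by linarith)] with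
      N h1 ⟨hN, h2⟩ z hz
    obtain ⟨h3, h4, h5⟩ := log_fc (m := m) hN
    obtain ⟨h6, h7⟩ := h1 z (hsub hz)
    refine ⟨mul_ne_zero h6 h3, ?_⟩
    rw [norm_mul, Real.log_mul (norm_ne_zero_iff.2 h6) (norm_ne_zero_iff.2 h3), h4]
    have h8 : (0 : ℝ) ≤ (2 * m : ℕ) * Real.log N := mul_nonneg (Nat.cast_nonneg _) h5
    rw [abs_le] at h7 ⊢
    constructor <;> linarith [h7.1, h7.2]

/-- a lower bound on a smaller rectangle -/
theorem lower {ρ₂ τ₂ R₀ : ℝ} (h0 : 0 < R₀) (h1 : R₀ < ρ₂) (h2 : R₀ < τ₂) {a : ℂ → ℂ}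
    (ha : DifferentiableOn ℂ a (Rc ρ₂ τ₂)) (hnz : ∀ z ∈ Rc ρ₂ τ₂, a z ≠ 0) :
    ∃ c₁ : ℝ, 0 < c₁ ∧ ∀ ψ ∈ Rc R₀ R₀, c₁ ≤ ‖a ψ‖ := by
  set Q : Set ℂ := Set.Icc (-R₀) R₀ ×ℂ Set.Icc (-R₀) R₀ with hQ
  have hQc : IsCompact Q := isCompact_Icc.reProdIm isCompact_Icc
  have hQs : Q ⊆ Rc ρ₂ τ₂ := by
    intro z hz
    rw [hQ, Complex.mem_reProdIm] at hz
    have h3 := abs_le.2 hz.1
    have h4 := abs_le.2 hz.2
    exact ⟨by linarith, by linarith⟩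
  have hQ0 : (0 : ℂ) ∈ Q := by
    rw [hQ, Complex.mem_reProdIm, Complex.zero_re, Complex.zero_im]
    exact ⟨⟨by linarith, h0.le⟩, ⟨by linarith, h0.le⟩⟩
  obtain ⟨z, hz, hmin⟩ := hQc.exists_isMinOn ⟨0, hQ0⟩ (ha.continuousOn.mono hQs).norm
  refine ⟨‖a z‖, norm_pos_iff.2 (hnz z (hQs hz)), fun ψ hψ => ?_⟩
  apply hmin
  rw [hQ, Complex.mem_reProdIm]
  exact ⟨abs_le.1 hψ.1.le, abs_le.1 hψ.2.le⟩

/-- **Task DX-TRUX.** -/
theorem t_TRUX : S_TRUX := by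
  obtain ⟨ρ, τ, κ₀, c, s, dl, hK₀⟩ := Pool.Agent.W719.AR.f_KER
  have hτ := hK₀.hτ.1
  have hρ := hK₀.hρ.1
  have hc := hK₀.hc
  have hκ0 : 0 < min κ₀ (8 * c * τ ^ 2) := lt_min hK₀.hκ.1 (by positivity)
  have hK : KD ρ τ (min κ₀ (8 * c * τ ^ 2)) c s dl := KD_mono hK₀ hκ0 (min_le_left _ _)
  have hκ8 : min κ₀ (8 * c * τ ^ 2) ≤ 8 * c * τ ^ 2 := min_le_right _ _
  generalize min κ₀ (8 * c * τ ^ 2) = κ at *
  obtain ⟨ρ₂, τ₂, hρ₂, hτ₂, Ak, hAk⟩ :=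
    Pool.Agent.W719.AX.f_KXC Pool.Agent.W719.AX.f_WIN ρ τ κ c s dl hK
  obtain ⟨ε₀, K, hε, hε1, hK0, hre, h1, h2⟩ := f_STEPU ρ τ κ c s dl hK ρ₂ τ₂ Ak hρ₂ hτ₂ hAk
  obtain ⟨b1, b2⟩ := Pool.Agent.TH929.stepb ρ τ κ c s dl hK ρ₂ τ₂ Ak hρ₂ hτ₂ hAk ε₀ hε hε1 hre
  obtain ⟨h0, hp⟩ := f_PRU ρ τ κ c s dl hK ε₀ hε
  obtain ⟨h0x, hpx⟩ := Pool.Agent.W52.AX.prdx Pool.Agent.W303.AX.uxmul ρ₂ τ₂
  obtain ⟨C, hC⟩ := hK.sbd
  refine ⟨ρ, τ, κ, c, s, dl, hK, K, hK0, fun D => ?_⟩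
  have hρp := hAk.hρ
  have hτp := hAk.hτ
  have hR0 : 0 < min τ (min ρ₂ τ₂ / 2) := lt_min hτ (by positivity)
  have hR1 : min τ (min ρ₂ τ₂ / 2) ≤ τ := min_le_left _ _
  have hR2 : min τ (min ρ₂ τ₂ / 2) < ρ₂ := by
    have e1 : min τ (min ρ₂ τ₂ / 2) ≤ min ρ₂ τ₂ / 2 := min_le_right _ _
    have e2 : min ρ₂ τ₂ ≤ ρ₂ := min_le_left _ _
    linarith
  have hR3 : min τ (min ρ₂ τ₂ / 2) < τ₂ := by
    have e1 : min τ (min ρ₂ τ₂ / 2) ≤ min ρ₂ τ₂ / 2 := min_le_right _ _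
    have e2 : min ρ₂ τ₂ ≤ τ₂ := min_le_right _ _
    linarith
  generalize min τ (min ρ₂ τ₂ / 2) = R₀ at *
  refine ⟨R₀, D * (2 * |C| + ε₀) + 1, hR0, hR1, by positivity, fun t hB hD => ?_⟩
  obtain ⟨F, A, hG, hA, hcr⟩ := mainu_ind hK h0 hp h0x hpx h1 b1 t hB
  have hsub : Rc R₀ R₀ ⊆ Rc ρ₂ τ₂ := fun z hz => ⟨hz.1.trans hR2, hz.2.trans hR3⟩
  refine ⟨F, A, ⟨?_, ?_, fun k => (hA.an k).mono hsub, lower hR0 hR2 hR3 (hA.an 0) hA.nz⟩,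
    fun ψ hψ => ?_⟩
  · have h3 := dg_scale (dg_of hK hε hε1 hκ8 hre hC hD hG) hR1 t.ne
    have e1 : (fun (N : ℕ) ψ => XX t N ψ * ((N : ℂ) ^ (2 * t.ne) * (-1) ^ (N * t.ne) *
        Complex.exp (-(N * F 0)))) = fun (N : ℕ) ψ => XX t N ψ * Complex.exp (-(N * F 0)) *
        fc t.ne N := by
      funext N ψ
      unfold fc
      ring
    rw [e1]
    exact h3
  · intro k
    obtain ⟨C', hC'⟩ := hA.ux k
    refine ⟨C', ?_⟩
    filter_upwards [hC'] with N hN p hp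
    have h3 := hN p (hsub hp)
    have e1 : Complex.exp (-(N * (F p - F 0))) * (XX t N p * ((N : ℂ) ^ (2 * t.ne) *
        (-1) ^ (N * t.ne) * Complex.exp (-(N * F 0)))) =
        (N : ℂ) ^ (2 * t.ne) * (-1) ^ (N * t.ne) * Complex.exp (-(N * F p)) * XX t N p := by
      have e2 : Complex.exp (-(N * (F p - F 0))) * Complex.exp (-(N * F 0)) =
          Complex.exp (-(N * F p)) := by
        rw [← Complex.exp_add]
        congr 1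
        ring
      rw [← e2]
      ring
    show ‖Complex.exp (-(N * (F p - F 0))) * (XX t N p * ((N : ℂ) ^ (2 * t.ne) *
        (-1) ^ (N * t.ne) * Complex.exp (-(N * F 0)))) - _‖ ≤ _
    rw [e1]
    exact h3
  · obtain ⟨p, hp1, hp2, hp3, hp4, hp5⟩ := hcr ψ (Rc_subU hρ hτ hψ)
    exact ⟨p, hp1, hp2, hp3, hp4.symm, hp5⟩

end Pool.Agent.Y721.DX
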